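import Pool.Agent.L7h88.EV.Stm
import Pool.Agent.L7h88.BW.Fin2

/-!
# Project EV (helper88): every even distance (`S_FINW → S_DST`)
-/

set_option autoImplicit false

namespace Pool.Agent.L7h29.EV

open Finset Filter
open Pool.Agent.L7h88.EV

/-- powers: `K + (2 k)^{1-δ₀} ≤ k^{1-δ}` for large `k` -/
lemma ev_rpow {δ δ₀ : ℝ} (hδ : δ < δ₀) (hδ₀ : δ₀ ≤ 1) (hδ₀' : 0 ≤ δ₀) (K : ℝ) (hK : 0 ≤ K) :
    ∀ᶠ k : ℕ in atTop, K + (2 * (k : ℝ)) ^ (1 - δ₀) ≤ (k : ℝ) ^ (1 - δ) := by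
  have h1 : Tendsto (fun k : ℕ => (k : ℝ) ^ (δ₀ - δ)) atTop atTop :=
    (tendsto_rpow_atTop (by linarith)).comp tendsto_natCast_atTop_atTop
  filter_upwards [h1.eventually_ge_atTop (K + 2), eventually_ge_atTop 1] with k g1 g2
  have hk1 : (1 : ℝ) ≤ k := by exact_mod_cast g2
  have hk0 : (0 : ℝ) < k := by linarith
  have h2 : (2 * (k : ℝ)) ^ (1 - δ₀) = 2 ^ (1 - δ₀) * (k : ℝ) ^ (1 - δ₀) :=
    Real.mul_rpow (by norm_num) hk0.le
  have h3 : (1 : ℝ) ≤ (k : ℝ) ^ (1 - δ₀) := Real.one_le_rpow hk1 (by linarith)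
  have h4 : (k : ℝ) ^ (1 - δ) = (k : ℝ) ^ (δ₀ - δ) * (k : ℝ) ^ (1 - δ₀) := by
    rw [← Real.rpow_add hk0]; congr 1; ring
  rw [h2, h4]
  have h5 : (K + 2) * (k : ℝ) ^ (1 - δ₀) ≤ (k : ℝ) ^ (δ₀ - δ) * (k : ℝ) ^ (1 - δ₀) :=
    mul_le_mul_of_nonneg_right g1 (by linarith)
  have h6 : K ≤ K * (k : ℝ) ^ (1 - δ₀) := le_mul_of_one_le_right hK h3
  have h7 : (2 : ℝ) ^ (1 - δ₀) ≤ 2 := by
    calc (2 : ℝ) ^ (1 - δ₀) ≤ 2 ^ (1 : ℝ) := Real.rpow_le_rpow_of_exponent_le (by norm_num) (by linarith)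
      _ = 2 := Real.rpow_one 2
  nlinarith

theorem s_DST (hF : S_FINW) : S_DST := by
  classical
  obtain ⟨ζ, c, δ₀, hζ, hc, hδ₀, hδ₀', X₁, H⟩ := hF
  obtain ⟨δ, hδ⟩ : ∃ δ, δ = min (δ₀ / 2) ζ := ⟨_, rfl⟩
  have hδ0 : 0 < δ := by rw [hδ]; exact lt_min (by positivity) hζ
  have hδ1 : δ ≤ δ₀ / 2 := by rw [hδ]; exact min_le_left _ _
  have hδ2 : δ ≤ ζ := by rw [hδ]; exact min_le_right _ _
  obtain ⟨k₀, hk₀⟩ := eventually_atTop.1 ((ev_rpow (δ := δ) (δ₀ := δ₀) (by linarith) (by linarith) hδ₀.le 0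
    le_rfl).and (eventually_ge_atTop 2))
  refine ⟨⌈3 / ζ⌉₊, c / 16, δ, by positivity, hδ0, ?_⟩
  rw [← Filter.eventually_atTop]
  filter_upwards [ev_rpow (δ := δ) (δ₀ := δ₀) (by linarith) (by linarith) hδ₀.le (k₀ : ℝ) (Nat.cast_nonneg _),
    eventually_ge_atTop X₁, eventually_ge_atTop 1] with X g1 g2 g3
  obtain ⟨B, hB⟩ : ∃ B, B = (Icc 2 (2 * X)).filter (fun N : ℕ => ¬ ∀ (a b : ℝ) (E : ℤ), (N : ℝ) ^ 2 ≤ a →
    b ≤ ((N : ℝ) + 1) ^ 2 → (N : ℝ) ^ (1 - δ₀) ≤ b - a → Even E → (|E| : ℝ) ≤ 4 * (N : ℝ) ^ 2 + 4 * N + 4 →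
    c * (b - a) / Real.log N ^ 2 ≤ ((GP ζ N a b E).card : ℝ)) := ⟨_, rfl⟩
  have hBc : (B.card : ℝ) ≤ (2 * (X : ℝ)) ^ (1 - δ₀) := by
    have := H (2 * X) (by omega)
    rw [← hB] at this
    push_cast at this
    exact this
  obtain ⟨S, hS⟩ : ∃ S, S = (Icc 1 X).filter (fun k : ℕ => ¬ ∀ d : ℕ, 2 ≤ d → Even d →
    (d : ℝ) ≤ 8 * k - (k : ℝ) ^ (1 - δ) →
    c / 16 * (8 * k - d) / Real.log k ^ 2 ≤ ((dist ⌈3 / ζ⌉₊ δ k d).card : ℝ)) := ⟨_, rfl⟩
  rw [← hS]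
  have hcov : ∀ k ∈ S, k₀ < k → 2 * k - 1 ∈ B := by
    intro k hk hkk
    rw [hS, mem_filter, mem_Icc] at hk
    obtain ⟨⟨hk1, hkX⟩, hk3⟩ := hk
    obtain ⟨e1, e2⟩ := hk₀ k hkk.le
    rw [hB, mem_filter, mem_Icc]
    refine ⟨⟨by omega, by omega⟩, fun hall => hk3 fun d hd2 hde hd => ?_⟩
    have hk2 : (2 : ℝ) ≤ k := by exact_mod_cast e2
    have hk0 : (0 : ℝ) < k := by linarith
    obtain ⟨N, hN⟩ : ∃ N, N = 2 * k - 1 := ⟨_, rfl⟩
    rw [← hN] at hall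
    have hNk : N + 1 = 2 * k := by omega
    have hNr : (N : ℝ) = 2 * k - 1 := by
      have : ((N + 1 : ℕ) : ℝ) = ((2 * k : ℕ) : ℝ) := by rw [hNk]
      push_cast at this
      linarith
    have hN0 : (0 : ℝ) < N := by rw [hNr]; linarith
    obtain ⟨b, hb⟩ : ∃ b : ℝ, b = min (((N : ℝ) + 1) ^ 2) ((2 * (k : ℝ) + 1) ^ 2 - d) := ⟨_, rfl⟩
    have hb1 : b ≤ ((N : ℝ) + 1) ^ 2 := by rw [hb]; exact min_le_left _ _
    have hb2 : b ≤ (2 * (k : ℝ) + 1) ^ 2 - d := by rw [hb]; exact min_le_right _ _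
    have hkp : 0 < (k : ℝ) ^ (1 - δ) := by positivity
    have hd0 : (0 : ℝ) ≤ d := Nat.cast_nonneg _
    have hkp1 : (k : ℝ) ^ (1 - δ) ≤ k := by
      calc (k : ℝ) ^ (1 - δ) ≤ (k : ℝ) ^ (1 : ℝ) := Real.rpow_le_rpow_of_exponent_le (by linarith) (by linarith)
        _ = k := Real.rpow_one _
    have hba1 : (8 * (k : ℝ) - d) / 4 ≤ b - (N : ℝ) ^ 2 := by
      rw [hb, hNr]
      rcases min_cases ((2 * (k : ℝ) - 1 + 1) ^ 2) ((2 * (k : ℝ) + 1) ^ 2 - d) with h | h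
      · rw [h.1]; nlinarith
      · rw [h.1]; nlinarith
    have hba2 : (k : ℝ) ^ (1 - δ) ≤ b - (N : ℝ) ^ 2 := by
      rw [hb, hNr]
      rcases min_cases ((2 * (k : ℝ) - 1 + 1) ^ 2) ((2 * (k : ℝ) + 1) ^ 2 - d) with h | h
      · rw [h.1]; nlinarith
      · rw [h.1]; nlinarith
    have hNp : (N : ℝ) ^ (1 - δ₀) ≤ b - (N : ℝ) ^ 2 := by
      refine le_trans ?_ hba2
      refine le_trans ?_ e1
      rw [zero_add]
      apply Real.rpow_le_rpow hN0.le _ (by linarith)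
      rw [hNr]; linarith
    have hEe : Even (-(d : ℤ)) := by
      rw [even_neg]
      exact_mod_cast hde
    have hEl : ((|-(d : ℤ)| : ℤ) : ℝ) ≤ 4 * (N : ℝ) ^ 2 + 4 * N + 4 := by
      rw [abs_neg, Nat.abs_cast, Int.cast_natCast, hNr]
      nlinarith
    have hmain := hall ((N : ℝ) ^ 2) b (-(d : ℤ)) le_rfl hb1 hNp hEe (by
      have := hEl
      push_cast at this ⊢
      exact this)
    have hsub : GP ζ N ((N : ℝ) ^ 2) b (-(d : ℤ)) ⊆ dist ⌈3 / ζ⌉₊ δ k d := by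
      intro p hp
      unfold GP at hp
      rw [mem_filter, mem_Icc] at hp
      obtain ⟨⟨hp1, hp2⟩, hpp, ha, hpb, hl⟩ := hp
      have h1 : N ^ 2 < p := by exact_mod_cast ha
      have h2 : (p : ℝ) + d < (2 * (k : ℝ) + 1) ^ 2 := by linarith
      have h2' : p + d < (2 * k + 1) ^ 2 := by exact_mod_cast h2
      have hl' : ∀ l : ℕ, l.Prime → l ∣ p + d → (N : ℝ) ^ ζ < l := by
        intro l hlp hld
        apply hl l hlp
        have h3 : -(d : ℤ) - p = -((p + d : ℕ) : ℤ) := by push_cast; ring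
        rw [h3, dvd_neg]
        exact_mod_cast hld
      have hN3 : 3 ≤ N := by omega
      unfold Pool.Agent.L7h88.EV.dist
      rw [mem_filter, mem_Icc]
      refine ⟨⟨hp1, by omega⟩, hpp, by rw [← hN]; exact h1, h2', ?_, ?_⟩
      · apply Pool.Agent.L7h88.BW.len_le (N := N) (by omega) (by omega) _ hζ (Nat.le_ceil _) hl'
        have h4 : (2 * k + 1) ^ 2 ≤ N ^ 3 := by
          have h5 : 2 * k + 1 = N + 2 := by omega
          rw [h5]
          nlinarith [mul_le_mul hN3 (le_refl (N ^ 2)) (Nat.zero_le _) (Nat.zero_le N)]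
        omega
      · intro l hlp hld
        refine lt_of_le_of_lt ?_ (hl' l hlp hld)
        calc (k : ℝ) ^ δ ≤ (N : ℝ) ^ δ := by
              apply Real.rpow_le_rpow hk0.le _ hδ0.le
              rw [hNr]; linarith
          _ ≤ (N : ℝ) ^ ζ := by
              apply Real.rpow_le_rpow_of_exponent_le _ hδ2
              rw [hNr]; linarith
    refine le_trans ?_ (hmain.trans (Nat.cast_le.2 (card_le_card hsub)))
    have hlogk : 0 < Real.log k := Real.log_pos (by linarith)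
    have hlogN0 : 0 < Real.log N := Real.log_pos (by rw [hNr]; linarith)
    have hlogN : Real.log N ≤ 2 * Real.log k := by
      have h1 : (N : ℝ) ≤ (k : ℝ) ^ 2 := by rw [hNr]; nlinarith
      have h2 := Real.log_le_log hN0 h1
      rw [Real.log_pow] at h2
      push_cast at h2
      linarith
    have hsq : Real.log N ^ 2 ≤ 4 * Real.log k ^ 2 := by nlinarith
    have hkd : 0 ≤ 8 * (k : ℝ) - d := by linarith
    calc c / 16 * (8 * (k : ℝ) - d) / Real.log k ^ 2 = c * ((8 * (k : ℝ) - d) / 4) / (4 * Real.log k ^ 2) := by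
          field_simp
          ring
      _ ≤ c * ((8 * (k : ℝ) - d) / 4) / Real.log N ^ 2 :=
          div_le_div_of_nonneg_left (by positivity) (by positivity) hsq
      _ ≤ c * (b - (N : ℝ) ^ 2) / Real.log N ^ 2 := by gcongr
  have hc1 : S.card ≤ k₀ + B.card := by
    have h1 : S ⊆ Icc 1 k₀ ∪ S.filter (fun k => k₀ < k) := by
      intro k hk
      rw [mem_union, mem_Icc, mem_filter]
      by_cases h : k₀ < k
      · exact Or.inr ⟨hk, h⟩
      · left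
        rw [hS, mem_filter, mem_Icc] at hk
        exact ⟨hk.1.1, not_lt.1 h⟩
    have h2 : (S.filter (fun k => k₀ < k)).card ≤ B.card := by
      apply card_le_card_of_injOn (fun k => 2 * k - 1)
      · intro k hk
        rw [mem_coe, mem_filter] at hk
        exact hcov k hk.1 hk.2
      · intro x hx y hy hxy
        rw [mem_coe, mem_filter, hS, mem_filter, mem_Icc] at hx hy
        simp only at hxy
        omega
    have h3 := (card_le_card h1).trans (card_union_le _ _)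
    rw [Nat.card_Icc, Nat.add_sub_cancel] at h3
    omega
  have hc2 : (S.card : ℝ) ≤ k₀ + B.card := by exact_mod_cast hc1
  linarith

end Pool.Agent.L7h29.EV
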