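import Pool.Agent.L7h88.EV.Stm
import Pool.Agent.L7h88.BW.Fin2

/-!
# Project EV (helper88): from windows to the intervals between consecutive squares (`S_WIN → S_FINW`)
-/

set_option autoImplicit false

namespace Pool.Agent.L7h29.EV

open Finset Filter
open Pool.Agent.L7h88.BW (grid Nj Nj_eq)
open Pool.Agent.L7h88.EV

open Classical in
/-- the bad windows -/
noncomputable def Bw (ζ c Y κ t : ℝ) : Finset ℕ :=
  (range (⌊1 / (2 * κ)⌋₊ - 1)).filter (fun j : ℕ => ∃ E : ℤ, Even E ∧ (|E| : ℝ) ≤ Real.exp (Y + 2) ∧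
    ((RW ζ Y κ (Y - 1 / 4 + t + j * κ) E).card : ℝ) < c * κ * Real.exp Y / Y ^ 2)

lemma mem_RW {ζ Y κ u : ℝ} {E : ℤ} {p : ℕ} (h : p ∈ RW ζ Y κ u E) : p.Prime ∧ u < Real.log p ∧
    Real.log p ≤ u + κ ∧ ∀ l : ℕ, l.Prime → (l : ℤ) ∣ E - p → Real.exp (ζ * Y) < l := by
  classical
  unfold RW at h
  rw [mem_filter, mem_Icc] at h
  refine ⟨h.2.1, h.2.2.1, ?_, h.2.2.2⟩
  have hp0 : (0 : ℝ) < p := by exact_mod_cast h.1.1
  rw [Real.log_le_iff_le_exp hp0]
  exact (Nat.cast_le.2 h.1.2).trans (Nat.floor_le (Real.exp_pos _).le)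

lemma sum_le_GP {N : ℕ} {ζ Y κ s a b : ℝ} {E : ℤ} (hκ : 0 < κ) (ha : 0 < a) (hb0 : 0 < b - 1 / 2)
    (hb : b ≤ ((N : ℝ) + 1) ^ 2) (hNY : (N : ℝ) ^ ζ ≤ Real.exp (ζ * Y)) (G : Finset ℕ)
    (hG : ∀ j ∈ G, Real.log a ≤ s + (j : ℕ) * κ ∧ s + (j : ℕ) * κ + κ ≤ Real.log (b - 1 / 2)) :
    ∑ j ∈ G, ((RW ζ Y κ (s + (j : ℕ) * κ) E).card : ℝ) ≤ ((GP ζ N a b E).card : ℝ) := by
  classical
  have hdis : (G : Set ℕ).PairwiseDisjoint (fun j => RW ζ Y κ (s + (j : ℕ) * κ) E) := by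
    intro i _ j _ hij
    rw [Function.onFun, disjoint_left]
    intro p hp hp'
    have h1 := mem_RW hp
    have h2 := mem_RW hp'
    rcases lt_or_gt_of_ne hij with h | h
    · have h3 : (i : ℝ) + 1 ≤ j := by exact_mod_cast h
      have h4 := mul_le_mul_of_nonneg_right h3 hκ.le
      linarith [h1.2.2.1, h2.2.1]
    · have h3 : (j : ℝ) + 1 ≤ i := by exact_mod_cast h
      have h4 := mul_le_mul_of_nonneg_right h3 hκ.le
      linarith [h2.2.2.1, h1.2.1]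
  rw [← Nat.cast_sum, ← card_biUnion hdis, Nat.cast_le]
  apply card_le_card
  intro p hp
  rw [mem_biUnion] at hp
  obtain ⟨j, hj, hp⟩ := hp
  obtain ⟨hpp, h1, h2, h3⟩ := mem_RW hp
  obtain ⟨g1, g2⟩ := hG j hj
  have hp0 : (0 : ℝ) < p := by exact_mod_cast hpp.pos
  have e1 : a < p := (Real.log_lt_log_iff ha hp0).1 (by linarith)
  have e2 : (p : ℝ) ≤ b - 1 / 2 := (Real.log_le_log_iff hp0 hb0).1 (by linarith)
  unfold GP
  rw [mem_filter, mem_Icc]
  refine ⟨⟨hpp.pos, ?_⟩, hpp, e1, by linarith, fun l hl hd => lt_of_le_of_lt hNY (h3 l hl hd)⟩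
  have : (p : ℝ) ≤ (((N + 1) ^ 2 : ℕ) : ℝ) := by push_cast; linarith
  exact_mod_cast this

/-- one `N` that is not heavy -/
lemma finw_one {ζ c Y κ t H K : ℝ} {N : ℕ} (hζ : 0 < ζ) (hc : 0 < c) (hY : 100 ≤ Y) (hκ0 : 0 < κ)
    (hκs : κ ≤ 1 / 100) (hκY : 1 ≤ κ * Real.exp Y) (ht0 : 0 ≤ t) (htκ : t ≤ κ)
    (hN1 : Y / 2 - 1 / 10 ≤ Real.log N) (hN2 : Real.log N ≤ Y / 2 + 1 / 10) (hN100 : 100 ≤ N)
    (hH : 20 * (κ * Real.exp Y) ≤ H) (hK : 4 * K * (κ * Real.exp Y) ≤ H)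
    (hlight : (((Bw ζ c Y κ t).filter (fun j : ℕ => Nj (Y - 1 / 4 + t + j * κ) = N)).card : ℝ) ≤ K)
    {a b : ℝ} {E : ℤ} (ha : (N : ℝ) ^ 2 ≤ a) (hb : b ≤ ((N : ℝ) + 1) ^ 2) (hab : H ≤ b - a) (hE : Even E)
    (hE2 : (|E| : ℝ) ≤ 4 * (N : ℝ) ^ 2 + 4 * N + 4) :
    c / 36 * (b - a) / Real.log N ^ 2 ≤ ((GP ζ N a b E).card : ℝ) := by
  classical
  have hY0 : 0 < Y := by linarith
  have hE0 : 0 < Real.exp Y := Real.exp_pos Y
  have hNr : (100 : ℝ) ≤ N := by exact_mod_cast hN100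
  have hN0 : (0 : ℝ) < N := by linarith
  have hN2pos : 0 < (N : ℝ) ^ 2 := by positivity
  have ha0 : 0 < a := by linarith
  have hba : 20 ≤ b - a := by linarith
  obtain ⟨b1, hb1⟩ : ∃ b1, b1 = b - 1 / 2 := ⟨_, rfl⟩
  have hb10 : 0 < b1 := by rw [hb1]; linarith
  have hab1 : a < b1 := by rw [hb1]; linarith
  obtain ⟨M, hM⟩ : ∃ M, M = ⌊1 / (2 * κ)⌋₊ - 1 := ⟨_, rfl⟩
  obtain ⟨s, hs⟩ : ∃ s, s = Y - 1 / 4 + t := ⟨_, rfl⟩
  have hlogN2 : Real.log ((N : ℝ) ^ 2) = 2 * Real.log N := by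
    rw [Real.log_pow]
    push_cast
    ring
  have hla : Y - 1 / 5 ≤ Real.log a := by
    have h5 := Real.log_le_log hN2pos ha
    rw [hlogN2] at h5
    linarith
  have hlb : Real.log b1 ≤ Y + 1 / 5 + 1 / 50 := by
    have h5 := Real.log_le_log hb10 (by rw [hb1]; linarith : b1 ≤ ((N : ℝ) + 1) ^ 2)
    rw [Real.log_pow] at h5
    have h6 : Real.log ((N : ℝ) + 1) ≤ Real.log N + 1 / N := by
      have h7 := Real.log_le_sub_one_of_pos (show 0 < ((N : ℝ) + 1) / N by positivity)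
      rw [Real.log_div (by positivity) hN0.ne'] at h7
      have h8 : ((N : ℝ) + 1) / N - 1 = 1 / N := by field_simp; ring
      linarith
    have h9 : 1 / (N : ℝ) ≤ 1 / 100 := one_div_le_one_div_of_le (by norm_num) hNr
    push_cast at h5
    linarith
  have hMκ : 1 / 2 - 2 * κ ≤ M * κ := by
    have h5 : 1 / (2 * κ) - 1 < ⌊1 / (2 * κ)⌋₊ := Nat.sub_one_lt_floor _
    have h6 : ((⌊1 / (2 * κ)⌋₊ : ℝ)) - 1 ≤ M := by
      rw [sub_le_iff_le_add, hM]
      exact_mod_cast (by omega : ⌊1 / (2 * κ)⌋₊ ≤ ⌊1 / (2 * κ)⌋₊ - 1 + 1)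
    have h7 : 1 / (2 * κ) - 2 ≤ M := by linarith
    have h8 := mul_le_mul_of_nonneg_right h7 hκ0.le
    have h9 : (1 / (2 * κ) - 2) * κ = 1 / 2 - 2 * κ := by field_simp
    linarith
  have hsa : s ≤ Real.log a := by rw [hs]; linarith
  have hbs : Real.log b1 ≤ s + M * κ := by rw [hs]; linarith
  have hgrid := grid (M := M) hκ0 hsa hbs
  obtain ⟨W, hW⟩ : ∃ W, W = (range M).filter (fun j : ℕ => Real.log a ≤ s + j * κ ∧
    s + j * κ + κ ≤ Real.log b1) := ⟨_, rfl⟩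
  rw [← hW] at hgrid
  have he2 : Real.exp (1 / 5 : ℝ) ≤ 1.23 := by
    have h := Real.exp_bound' (x := 1 / 5) (by norm_num) (by norm_num) (n := 3) (by norm_num)
    norm_num [Finset.sum_range_succ, Nat.factorial] at h
    linarith
  have hN2E : (N : ℝ) ^ 2 ≤ 1.23 * Real.exp Y := by
    have h8 : (N : ℝ) ^ 2 ≤ Real.exp (Y + 1 / 5) := by
      rw [← Real.log_le_iff_le_exp hN2pos, hlogN2]
      linarith
    rw [Real.exp_add] at h8
    nlinarith
  have hb1E : b1 ≤ 1.3 * Real.exp Y := by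
    rw [hb1]
    nlinarith
  obtain ⟨r, hr⟩ : ∃ r, r = (b - a) / (κ * Real.exp Y) := ⟨_, rfl⟩
  have hκE : 0 < κ * Real.exp Y := by positivity
  have hr20 : 20 ≤ r := by
    rw [hr, le_div_iff₀ hκE]; linarith
  have hrK : 4 * K ≤ r := by
    rw [hr, le_div_iff₀ hκE]; linarith
  have hlen : (b1 - a) / (1.3 * Real.exp Y) ≤ Real.log b1 - Real.log a := by
    have h5 := Real.one_sub_inv_le_log_of_pos (show 0 < b1 / a by positivity)
    rw [Real.log_div hb10.ne' ha0.ne', inv_div] at h5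
    have h6 : (b1 - a) / b1 = 1 - a / b1 := by field_simp
    refine le_trans ?_ (h6.le.trans h5)
    exact div_le_div_of_nonneg_left (by linarith) hb10 hb1E
  have hW1 : r / 2 ≤ (W.card : ℝ) := by
    have h5 : (b1 - a) / (1.3 * Real.exp Y) / κ ≤ (Real.log b1 - Real.log a) / κ :=
      div_le_div_of_nonneg_right hlen hκ0.le
    have h6 : (b1 - a) / (1.3 * Real.exp Y) / κ = r / 1.3 - (1 / 2) / (1.3 * (κ * Real.exp Y)) := by
      rw [hr, hb1]
      field_simp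
      ring
    have h7 : (1 / 2) / (1.3 * (κ * Real.exp Y)) ≤ 1 / 2 := by
      apply div_le_self (by norm_num)
      linarith
    rw [h6] at h5
    have h8 : r / 2 + 3 ≤ r / 1.3 := by
      have : r / 1.3 = r * (1 / 1.3) := by ring
      rw [this]
      nlinarith
    linarith
  obtain ⟨G, hG⟩ : ∃ G, G = W.filter (fun j => j ∉ Bw ζ c Y κ t) := ⟨_, rfl⟩
  have hNjW : ∀ j ∈ W, Nj (Y - 1 / 4 + t + (j : ℕ) * κ) = N := by
    intro j hj
    rw [hW, mem_filter] at hj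
    obtain ⟨_, g1, g2⟩ := hj
    rw [← hs]
    apply Nj_eq
    · have h5 := (Real.log_le_iff_le_exp ha0).1 g1
      linarith
    · have h5 : s + (j : ℕ) * κ < Real.log b1 := by linarith
      have h6 := (Real.lt_log_iff_exp_lt hb10).1 h5
      rw [hb1] at h6
      linarith
  have hGc : r / 4 ≤ (G.card : ℝ) := by
    have h5 : W.card = (W.filter (fun j => j ∈ Bw ζ c Y κ t)).card + G.card := by
      rw [hG, card_filter_add_card_filter_not]
    have h6 : (W.filter (fun j => j ∈ Bw ζ c Y κ t)).card ≤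
        ((Bw ζ c Y κ t).filter (fun j : ℕ => Nj (Y - 1 / 4 + t + j * κ) = N)).card := by
      apply card_le_card
      intro j hj
      rw [mem_filter] at hj ⊢
      exact ⟨hj.2, hNjW j hj.1⟩
    have h7 : ((W.filter (fun j => j ∈ Bw ζ c Y κ t)).card : ℝ) ≤ K :=
      (Nat.cast_le.2 h6).trans hlight
    have h8 : (W.card : ℝ) = ((W.filter (fun j => j ∈ Bw ζ c Y κ t)).card : ℝ) + G.card := by
      exact_mod_cast h5
    linarith
  have hNY : (N : ℝ) ^ ζ ≤ Real.exp (ζ * Y) := by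
    rw [Real.rpow_def_of_pos hN0]
    apply Real.exp_le_exp.2
    rw [mul_comm]
    exact mul_le_mul_of_nonneg_left (by linarith) hζ.le
  have hsum := sum_le_GP (N := N) (ζ := ζ) (Y := Y) (κ := κ) (s := s) (a := a) (b := b) (E := E)
    hκ0 ha0 (by rw [← hb1]; exact hb10) hb hNY G (by
      intro j hj
      rw [hG, mem_filter, hW, mem_filter] at hj
      rw [← hb1]
      exact hj.1.2)
  have hEE : (|E| : ℝ) ≤ Real.exp (Y + 2) := by
    have h5 : Real.exp (Y + 2) = Real.exp Y * Real.exp 2 := Real.exp_add _ _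
    have h6 : (5.5 : ℝ) ≤ Real.exp 2 := by
      have h7 := Real.quadratic_le_exp_of_nonneg (show (0 : ℝ) ≤ 1 by norm_num)
      have h8 : Real.exp (2 : ℝ) = Real.exp 1 ^ 2 := by
        rw [← Real.exp_nat_mul]; norm_num
      rw [h8]
      nlinarith
    have h7 : 4 * (N : ℝ) ^ 2 + 4 * N + 4 ≤ 4.1 * (N : ℝ) ^ 2 := by nlinarith
    rw [h5]
    nlinarith
  have hone : ∀ j ∈ G, c * κ * Real.exp Y / Y ^ 2 ≤ ((RW ζ Y κ (s + (j : ℕ) * κ) E).card : ℝ) := by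
    intro j hj
    rw [hG, mem_filter] at hj
    have hjW := hj.1
    rw [hW, mem_filter] at hjW
    by_contra hcon
    apply hj.2
    unfold Bw
    rw [mem_filter, ← hM, ← hs]
    exact ⟨hjW.1, E, hE, hEE, not_le.1 hcon⟩
  have hfin : (G.card : ℝ) * (c * κ * Real.exp Y / Y ^ 2) ≤ ((GP ζ N a b E).card : ℝ) := by
    refine le_trans ?_ hsum
    rw [← nsmul_eq_mul]
    exact card_nsmul_le_sum _ _ _ hone
  refine le_trans ?_ hfin
  have hlogN0 : Y / 3 ≤ Real.log N := by linarith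
  have hlogsq : Y ^ 2 / 9 ≤ Real.log N ^ 2 := by
    have := mul_le_mul hlogN0 hlogN0 (by positivity) (by linarith)
    nlinarith
  have hlsq0 : 0 < Real.log N ^ 2 := by
    have : 0 < Real.log N := by linarith
    positivity
  have hba0 : 0 < b - a := by linarith
  calc c / 36 * (b - a) / Real.log N ^ 2 ≤ c / 36 * (b - a) / (Y ^ 2 / 9) :=
        div_le_div_of_nonneg_left (by positivity) (by positivity) hlogsq
    _ = r / 4 * (c * κ * Real.exp Y / Y ^ 2) := by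
        rw [hr]
        field_simp
        ring
    _ ≤ _ := mul_le_mul_of_nonneg_right hGc (by positivity)

open Classical in
/-- the exceptional `N` of a block -/
noncomputable def Exw (c ζ δ Y : ℝ) : Finset ℕ :=
  (Icc 1 ⌊Real.exp (Y / 2 + 1 / 10)⌋₊).filter (fun N : ℕ => Y / 2 - 1 / 10 ≤ Real.log N ∧
    ¬ ∀ (a b : ℝ) (E : ℤ), (N : ℝ) ^ 2 ≤ a → b ≤ ((N : ℝ) + 1) ^ 2 → (N : ℝ) ^ (1 - δ) ≤ b - a → Even E →
      (|E| : ℝ) ≤ 4 * (N : ℝ) ^ 2 + 4 * N + 4 → c * (b - a) / Real.log N ^ 2 ≤ ((GP ζ N a b E).card : ℝ))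

theorem blkw (hW : S_WIN) : ∃ ζ c δ Y₀ : ℝ, 0 < ζ ∧ 0 < c ∧ 0 < δ ∧ δ ≤ 1 / 10 ∧
    ∀ Y : ℝ, Y₀ ≤ Y → ((Exw c ζ δ Y).card : ℝ) ≤ Real.exp ((1 / 2 - 2 * δ) * Y) := by
  classical
  obtain ⟨ζ, c, η, δ₁, Y₁, hζ, hc, hη, hη', hδ₁, H⟩ := hW
  obtain ⟨δ, hδ⟩ : ∃ δ, δ = min (δ₁ / 3) (η / 3) := ⟨_, rfl⟩
  have hδ0 : 0 < δ := by rw [hδ]; exact lt_min (by positivity) (by positivity)
  have hδ1 : δ ≤ δ₁ / 3 := by rw [hδ]; exact min_le_left _ _
  have hδ2 : δ ≤ η / 3 := by rw [hδ]; exact min_le_right _ _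
  refine ⟨ζ, c / 36, δ, max (max Y₁ 100) (max (10 / η) (10 / δ)), hζ, by positivity, hδ0, by linarith, ?_⟩
  intro Y hY
  simp only [max_le_iff] at hY
  obtain ⟨⟨hY1, hY100⟩, hYη, hYδ⟩ := hY
  have hY0 : 0 < Y := by linarith
  have hYη' : 10 ≤ η * Y := by
    rw [div_le_iff₀ hη] at hYη; linarith
  have hYδ' : 10 ≤ δ * Y := by
    rw [div_le_iff₀ hδ0] at hYδ; linarith
  obtain ⟨κ, hκ⟩ : ∃ κ, κ = Real.exp (-((1 / 2 + η) * Y)) := ⟨_, rfl⟩
  have hκ0 : 0 < κ := by rw [hκ]; exact Real.exp_pos _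
  obtain ⟨t, ht0, htκ, HB⟩ := H Y κ hY1 hκ
  have hκs : κ ≤ 1 / 100 := by
    have h1 : κ ≤ Real.exp (-(Y / 4)) := by rw [hκ]; apply Real.exp_le_exp.2; nlinarith
    refine h1.trans ?_
    have h2 : Real.exp (-(Y / 4)) ≤ Real.exp (-25) := Real.exp_le_exp.2 (by linarith)
    refine h2.trans ?_
    rw [Real.exp_neg, one_div]
    apply inv_anti₀ (by norm_num)
    have := Real.quadratic_le_exp_of_nonneg (show (0 : ℝ) ≤ 25 by norm_num)
    linarith
  have hκE : κ * Real.exp Y = Real.exp ((1 / 2 - η) * Y) := by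
    rw [hκ, ← Real.exp_add]; congr 1; ring
  have hκY : 1 ≤ κ * Real.exp Y := by
    rw [hκE]; apply Real.one_le_exp; nlinarith
  obtain ⟨K, hK⟩ : ∃ K, K = Real.exp ((η - δ) * Y) := ⟨_, rfl⟩
  have hK0 : 0 < K := by rw [hK]; exact Real.exp_pos _
  -- the exceptional `N` are heavy
  have hheavy : ∀ N ∈ Exw (c / 36) ζ δ Y, K ≤
      (((Bw ζ c Y κ t).filter (fun j : ℕ => Nj (Y - 1 / 4 + t + j * κ) = N)).card : ℝ) := by
    intro N hN
    unfold Exw at hN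
    rw [mem_filter, mem_Icc] at hN
    obtain ⟨⟨hN1, hN2⟩, hN3, hN4⟩ := hN
    by_contra hlt
    apply hN4
    intro a b E ha hb hab hE hE2
    have hN0 : (0 : ℝ) < N := by exact_mod_cast hN1
    have hNu : Real.log N ≤ Y / 2 + 1 / 10 := by
      rw [Real.log_le_iff_le_exp hN0]
      exact (Nat.cast_le.2 hN2).trans (Nat.floor_le (Real.exp_pos _).le)
    have hN100 : 100 ≤ N := by
      have h1 : Real.exp (20 : ℝ) ≤ N := by
        rw [← Real.le_log_iff_exp_le hN0]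
        linarith
      have h2 := Real.quadratic_le_exp_of_nonneg (show (0 : ℝ) ≤ 20 by norm_num)
      have : (100 : ℝ) ≤ N := by linarith
      exact_mod_cast this
    have hHlow : Real.exp ((1 / 2 - δ / 2) * Y - 1) ≤ (N : ℝ) ^ (1 - δ) := by
      rw [Real.rpow_def_of_pos hN0]
      apply Real.exp_le_exp.2
      have h1 : (Y / 2 - 1 / 10) * (1 - δ) ≤ Real.log N * (1 - δ) :=
        mul_le_mul_of_nonneg_right hN3 (by linarith)
      nlinarith
    refine finw_one (H := (N : ℝ) ^ (1 - δ)) (K := K) hζ hc hY100 hκ0 hκs hκY ht0 htκ hN3 hNu hN100 ?_ ?_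
      (not_le.1 hlt).le ha hb hab hE hE2
    · refine le_trans ?_ hHlow
      rw [hκE]
      have h1 : (20 : ℝ) ≤ Real.exp 5 := by
        have := Real.quadratic_le_exp_of_nonneg (show (0 : ℝ) ≤ 2.5 by norm_num)
        have h8 : Real.exp (5 : ℝ) = Real.exp 2.5 ^ 2 := by
          rw [← Real.exp_nat_mul]; norm_num
        rw [h8]
        nlinarith
      calc 20 * Real.exp ((1 / 2 - η) * Y) ≤ Real.exp 5 * Real.exp ((1 / 2 - η) * Y) :=
            mul_le_mul_of_nonneg_right h1 (Real.exp_pos _).le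
        _ = Real.exp (5 + (1 / 2 - η) * Y) := by rw [← Real.exp_add]
        _ ≤ _ := by apply Real.exp_le_exp.2; nlinarith
    · refine le_trans ?_ hHlow
      rw [hκE, hK]
      have h1 : (4 : ℝ) ≤ Real.exp 3 := by
        have := Real.quadratic_le_exp_of_nonneg (show (0 : ℝ) ≤ 3 by norm_num)
        linarith
      calc 4 * Real.exp ((η - δ) * Y) * Real.exp ((1 / 2 - η) * Y)
          ≤ Real.exp 3 * Real.exp ((η - δ) * Y) * Real.exp ((1 / 2 - η) * Y) := by gcongr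
        _ = Real.exp (3 + (η - δ) * Y + (1 / 2 - η) * Y) := by rw [← Real.exp_add, ← Real.exp_add]
        _ ≤ _ := by apply Real.exp_le_exp.2; nlinarith
  have hsum : ((Exw (c / 36) ζ δ Y).card : ℝ) * K ≤ ((Bw ζ c Y κ t).card : ℝ) := by
    have h1 : ((Exw (c / 36) ζ δ Y).card : ℝ) * K ≤
        ∑ N ∈ Exw (c / 36) ζ δ Y,
          (((Bw ζ c Y κ t).filter (fun j : ℕ => Nj (Y - 1 / 4 + t + j * κ) = N)).card : ℝ) := by
      rw [← nsmul_eq_mul]
      exact card_nsmul_le_sum _ _ _ hheavy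
    refine h1.trans ?_
    rw [← Nat.cast_sum, Nat.cast_le]
    rw [← card_biUnion]
    · apply card_le_card
      intro j hj
      rw [mem_biUnion] at hj
      obtain ⟨N, _, hj⟩ := hj
      exact (mem_filter.1 hj).1
    · intro x _ y _ hxy
      rw [Function.onFun, disjoint_left]
      intro j hj hj'
      exact hxy ((mem_filter.1 hj).2.symm.trans (mem_filter.1 hj').2)
  have hB : ((Bw ζ c Y κ t).card : ℝ) ≤ Real.exp (-(δ₁ * Y)) / κ := HB
  have h1 : ((Exw (c / 36) ζ δ Y).card : ℝ) ≤ Real.exp (-(δ₁ * Y)) / κ / K := by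
    rw [le_div_iff₀ hK0]
    exact hsum.trans hB
  refine h1.trans ?_
  rw [hκ, hK, ← Real.exp_sub, ← Real.exp_sub]
  apply Real.exp_le_exp.2
  nlinarith

theorem s_FINW (hW : S_WIN) : S_FINW := by
  classical
  obtain ⟨ζ, c, δ, Y₀, hζ, hc, hδ, hδ', HY⟩ := blkw hW
  have hlog : Tendsto (fun X : ℕ => Real.log (X : ℝ)) atTop atTop :=
    Real.tendsto_log_atTop.comp tendsto_natCast_atTop_atTop
  refine ⟨ζ, c, δ, hζ, hc, hδ, hδ', ?_⟩
  rw [← Filter.eventually_atTop]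
  have ev1 := hlog.eventually (eventually_ge_atTop (max Y₀ 10 + 1))
  have ev2 := hlog.eventually (Pool.Agent.L7h88.BW.ev_pow_exp 12 (3 * δ) 1 (by positivity))
  filter_upwards [ev1, ev2, eventually_ge_atTop 2] with X h1 h2 hX2
  obtain ⟨L, hL⟩ : ∃ L, L = Real.log (X : ℝ) := ⟨_, rfl⟩
  rw [← hL] at h1 h2
  have hX0 : (0 : ℝ) < X := by exact_mod_cast (by omega : 0 < X)
  have hL10 : 11 ≤ L := by
    have := le_max_right Y₀ 10
    linarith
  have hLY : Y₀ + 1 ≤ L := by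
    have := le_max_left Y₀ 10
    linarith
  have hL0 : 0 < L := by linarith
  have hexpL : Real.exp L = X := by rw [hL, Real.exp_log hX0]
  -- the blocks
  obtain ⟨Yb, hYb⟩ : ∃ Yb : ℕ → ℝ, Yb = fun i : ℕ => 2 * L - 2 * i / 5 := ⟨_, rfl⟩
  have hYb' : ∀ i : ℕ, Yb i = 2 * L - 2 * i / 5 := fun i => by rw [hYb]
  obtain ⟨I, hI⟩ : ∃ I, I = ⌊5 * L / 2 + 1⌋₊ := ⟨_, rfl⟩
  obtain ⟨S, hS'⟩ : ∃ S, S = (Icc 2 X).filter (fun N : ℕ => ¬ ∀ (a b : ℝ) (E : ℤ), (N : ℝ) ^ 2 ≤ a →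
    b ≤ ((N : ℝ) + 1) ^ 2 → (N : ℝ) ^ (1 - δ) ≤ b - a → Even E → (|E| : ℝ) ≤ 4 * (N : ℝ) ^ 2 + 4 * N + 4 →
    c * (b - a) / Real.log N ^ 2 ≤ ((GP ζ N a b E).card : ℝ)) := ⟨_, rfl⟩
  rw [← hS']
  have hIL : (I : ℝ) ≤ 5 * L / 2 + 1 := by rw [hI]; exact Nat.floor_le (by positivity)
  have hcov : S ⊆ Icc 1 ⌊Real.exp (L / 2)⌋₊ ∪ (range (I + 1)).biUnion (fun i => Exw c ζ δ (Yb i)) := by
    intro N hN
    rw [hS', mem_filter, mem_Icc] at hN
    obtain ⟨⟨hN1, hN2⟩, hN3⟩ := hN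
    rw [mem_union]
    have hN0 : (0 : ℝ) < N := by exact_mod_cast (by omega : 0 < N)
    rcases le_or_gt (N : ℝ) (Real.exp (L / 2)) with hs | hs
    · left
      rw [mem_Icc]
      exact ⟨by omega, Nat.le_floor hs⟩
    · right
      rw [mem_biUnion]
      have hlN : L / 2 < Real.log N := (Real.lt_log_iff_exp_lt hN0).2 hs
      have hlN2 : Real.log N ≤ L := by
        rw [hL]
        exact Real.log_le_log hN0 (by exact_mod_cast hN2)
      obtain ⟨i, hi⟩ : ∃ i : ℕ, i = ⌊5 * (L - Real.log N) + 1 / 2⌋₊ := ⟨_, rfl⟩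
      have hi1 : (i : ℝ) ≤ 5 * (L - Real.log N) + 1 / 2 := by
        rw [hi]
        exact Nat.floor_le (by linarith)
      have hi2 : 5 * (L - Real.log N) + 1 / 2 < i + 1 := by
        rw [hi]
        exact Nat.lt_floor_add_one _
      refine ⟨i, ?_, ?_⟩
      · rw [mem_range]
        have h7 : i ≤ I := by
          rw [hI]
          apply Nat.le_floor
          linarith
        omega
      · have hb1 : (Yb i) / 2 - 1 / 10 ≤ Real.log N := by
          rw [hYb']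
          linarith
        have hb2 : Real.log N ≤ (Yb i) / 2 + 1 / 10 := by
          rw [hYb']
          linarith
        unfold Exw
        rw [mem_filter, mem_Icc]
        refine ⟨⟨by omega, ?_⟩, hb1, hN3⟩
        apply Nat.le_floor
        rw [← Real.log_le_iff_le_exp hN0]
        exact hb2
  obtain ⟨P, hP⟩ : ∃ P, P = Real.exp ((1 - 4 * δ) * L) := ⟨_, rfl⟩
  have hP0 : 0 < P := by rw [hP]; exact Real.exp_pos _
  have hbl : ∀ i ∈ range (I + 1), ((Exw c ζ δ (Yb i)).card : ℝ) ≤ P := by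
    intro i hi
    rw [mem_range] at hi
    have hi' : (i : ℝ) ≤ I := by exact_mod_cast (by omega : i ≤ I)
    have h5 : L - 1 ≤ Yb i := by
      rw [hYb']
      linarith
    refine (HY (Yb i) (by linarith)).trans ?_
    rw [hP]
    apply Real.exp_le_exp.2
    have h6 : Yb i ≤ 2 * L := by
      rw [hYb']
      have : (0 : ℝ) ≤ i := Nat.cast_nonneg _
      linarith
    have h7 : 0 ≤ 1 / 2 - 2 * δ := by linarith
    have := mul_le_mul_of_nonneg_left h6 h7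
    linarith
  have hc1 := (card_le_card hcov).trans ((card_union_le _ _).trans (Nat.add_le_add_left card_biUnion_le _))
  have hc2 : (S.card : ℝ) ≤ (⌊Real.exp (L / 2)⌋₊ : ℝ) +
      ∑ i ∈ range (I + 1), ((Exw c ζ δ (Yb i)).card : ℝ) := by
    rw [Nat.card_Icc, Nat.add_sub_cancel] at hc1
    exact_mod_cast hc1
  have hc3 : ∑ i ∈ range (I + 1), ((Exw c ζ δ (Yb i)).card : ℝ) ≤ (I + 1) * P := by
    have := sum_le_card_nsmul _ _ _ hbl
    rw [card_range, nsmul_eq_mul] at this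
    push_cast at this
    exact this
  have hc4 : (⌊Real.exp (L / 2)⌋₊ : ℝ) ≤ P := by
    refine (Nat.floor_le (Real.exp_pos _).le).trans ?_
    rw [hP]
    apply Real.exp_le_exp.2
    nlinarith
  have hc5 : (S.card : ℝ) ≤ 12 * L * P := by
    have h5 : (I : ℝ) + 2 ≤ 12 * L := by linarith
    have := mul_le_mul_of_nonneg_right h5 hP0.le
    linarith
  refine hc5.trans ?_
  rw [pow_one] at h2
  have h6 : 12 * L * P ≤ Real.exp (3 * δ * L) * P := mul_le_mul_of_nonneg_right h2 hP0.le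
  refine h6.trans (le_of_eq ?_)
  rw [hP, ← Real.exp_add, Real.rpow_def_of_pos hX0, ← hL]
  congr 1
  ring

end Pool.Agent.L7h29.EV
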