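import Pool.Agent.L7h88.EV.Stm
import Pool.Agent.L7h76.BW.Sive

/-!
# Project EV (helper88): the sieve in one window for all even integers (`S_SIVX`)

Adapted from `Pool/Agent/L7h76/BW/Sive.lean`.
-/

set_option autoImplicit false

namespace Pool.Agent.L7h29.EV

open Finset Filter
open Pool.Agent.L7h88.BW (th)
open Pool.Agent.L7h18.BP (Gc)
open Pool.Agent.L7h88.EV
open Pool.Agent.L7h76.BW (one_le_sgs' Wp mem_Wp th_eq th_one sive_fin)
open Pool.Agent.Y882 (wts sgs)

lemma modEq_emod_iff {d p : ℕ} {E : ℤ} (hd : 1 ≤ d) :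
    p ≡ (E % d).toNat [MOD d] ↔ d ∣ (E - p).natAbs := by
  have hd0 : (d : ℤ) ≠ 0 := by exact_mod_cast (by omega : d ≠ 0)
  have h1 : (((E % d).toNat : ℕ) : ℤ) = E % d := Int.toNat_of_nonneg (Int.emod_nonneg _ hd0)
  rw [← Int.natCast_dvd, ← Int.natCast_modEq_iff, h1, ← Int.modEq_iff_dvd]
  constructor
  · intro h
    exact h.trans (Int.mod_modEq E d)
  · intro h
    exact h.trans (Int.mod_modEq E d).symm

theorem s_SIVX : S_SIVX := by
  classical
  intro δ hδ hδ'
  obtain ⟨c0, hc0, X0, HW⟩ := wts (2 * δ / 5) (δ / 6) (δ / 2) (by positivity) (by linarith) (by linarith)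
    (by linarith) (by linarith)
  refine ⟨δ / 7, by positivity, fun c₁ hc₁ => ?_⟩
  refine ⟨c₁ * c0 / 8, max (max (max 10 c0) X0) (1 + 40 / (c₁ * c0)), by positivity, ?_⟩
  intro Y hY κ u E hκ1 hκ2 hu1 hu2 hEe hE2 hth herr
  simp only [max_le_iff] at hY
  obtain ⟨⟨⟨hY10, hYc0⟩, hYX⟩, hYc⟩ := hY
  have hY0 : 0 < Y := by linarith
  have hκ0 : 0 < κ := (Real.exp_pos _).trans_le hκ1
  have hδY : δ * Y ≤ Y / 100 := by nlinarith
  have hodd : ∀ p ∈ Wp u κ, (2 : ℝ) < p := by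
    intro p hp
    obtain ⟨hp1, hp2, hp3, hp4⟩ := mem_Wp hp
    have hp0 : (0 : ℝ) < p := by exact_mod_cast hp1.pos
    have h1 : Real.exp 1 < p := (Real.lt_log_iff_exp_lt hp0).1 (by linarith)
    have := Real.exp_one_gt_d9
    linarith
  by_cases hE0 : E = 0
  · -- all primes of the window
    have hsub : Wp u κ ⊆ RW (δ / 7) Y κ u E := by
      intro p hp
      obtain ⟨hp1, hp2, hp3, hp4⟩ := mem_Wp hp
      unfold Wp at hp
      rw [mem_filter] at hp
      unfold RW
      rw [mem_filter]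
      refine ⟨hp.1, hp1, hp2, fun l hl hd => ?_⟩
      rw [hE0, zero_sub, dvd_neg, Int.natCast_dvd_natCast, Nat.prime_dvd_prime_iff_eq hl hp1] at hd
      rw [hd]
      have hp0 : (0 : ℝ) < p := by exact_mod_cast hp1.pos
      rw [← Real.lt_log_iff_exp_lt hp0]
      linarith
    have h1 : th u κ 1 0 ≤ (Y + 1) * ((Wp u κ).card : ℝ) := by
      rw [th_one]
      have : ∑ p ∈ Wp u κ, Real.log p ≤ (Wp u κ).card • (Y + 1) := by
        apply sum_le_card_nsmul
        intro p hp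
        linarith [(mem_Wp hp).2.2.2]
      rw [nsmul_eq_mul] at this
      linarith
    have h2 : ((Wp u κ).card : ℝ) ≤ ((RW (δ / 7) Y κ u E).card : ℝ) := Nat.cast_le.2 (card_le_card hsub)
    refine le_trans ?_ h2
    have h3 : c₁ * κ * Real.exp Y / (Y + 1) ≤ ((Wp u κ).card : ℝ) := by
      rw [div_le_iff₀ (by linarith)]
      linarith
    refine le_trans ?_ h3
    rw [div_le_div_iff₀ (by positivity) (by positivity)]
    have h4 : c0 / 8 * (Y + 1) ≤ Y ^ 2 := by nlinarith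
    have h5 : 0 < c₁ * κ * Real.exp Y := by positivity
    nlinarith
  -- the parameter of the weights
  set X : ℕ := ⌈Real.exp (Y + 2)⌉₊ with hX
  have hX1 : Real.exp (Y + 2) ≤ X := Nat.le_ceil _
  have hX2 : (X : ℝ) ≤ Real.exp (Y + 3) := by
    have h1 : (X : ℝ) < Real.exp (Y + 2) + 1 := Nat.ceil_lt_add_one (Real.exp_pos _).le
    have h2 : Real.exp (Y + 3) = Real.exp (Y + 2) * Real.exp 1 := by
      rw [← Real.exp_add]
      congr 1
      ring
    have h3 := Real.exp_one_gt_d9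
    have h4 : 1 ≤ Real.exp (Y + 2) := Real.one_le_exp (by linarith)
    rw [h2]
    nlinarith
  have hXX0 : X0 ≤ X := by
    have h1 : (X0 : ℝ) ≤ X := by
      have h2 := Real.add_one_le_exp (Y + 2)
      linarith
    exact_mod_cast h1
  have hXp : (0 : ℝ) < X := (Real.exp_pos _).trans_le hX1
  have hlX1 : Y + 2 ≤ Real.log X := (Real.le_log_iff_exp_le hXp).2 hX1
  have hlX2 : Real.log X ≤ Y + 3 := (Real.log_le_iff_le_exp hXp).2 hX2
  obtain ⟨c, w1, w2, w3, w4⟩ := HW X hXX0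
  -- powers of X
  have hXr1 : (X : ℝ) ^ (δ / 2 : ℝ) ≤ Real.exp (δ * Y) := by
    calc (X : ℝ) ^ (δ / 2 : ℝ) ≤ (Real.exp (Y + 3)) ^ (δ / 2 : ℝ) :=
          Real.rpow_le_rpow hXp.le hX2 (by linarith)
      _ = Real.exp ((Y + 3) * (δ / 2)) := by rw [← Real.exp_mul]
      _ ≤ Real.exp (δ * Y) := Real.exp_le_exp.mpr (by nlinarith)
  have hXr2 : Real.exp (δ / 7 * Y) < (X : ℝ) ^ (δ / 6 : ℝ) := by
    calc Real.exp (δ / 7 * Y) < Real.exp ((Y + 2) * (δ / 6)) := Real.exp_lt_exp.mpr (by nlinarith)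
      _ = (Real.exp (Y + 2)) ^ (δ / 6 : ℝ) := by rw [← Real.exp_mul]
      _ ≤ (X : ℝ) ^ (δ / 6 : ℝ) := Real.rpow_le_rpow (Real.exp_pos _).le hX1 (by linarith)
  have hcF : ∀ d, c d ≠ 0 → d ∈ Icc 1 (Gc δ Y) := by
    intro d hd
    obtain ⟨h1, h2⟩ := w2 d hd
    rw [mem_Icc]
    refine ⟨Nat.pos_of_ne_zero h1.ne_zero, ?_⟩
    unfold Gc
    exact Nat.le_floor (h2.trans hXr1)
  have hm0 : ∀ p ∈ Wp u κ, (E - p).natAbs ≠ 0 := by
    intro p hp h
    rw [Int.natAbs_eq_zero, sub_eq_zero] at h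
    have h1 := hodd p hp
    have h2 := (mem_Wp hp).1
    rw [h] at hEe
    have h3 : Even p := by exact_mod_cast hEe
    have h4 : p = 2 := (Nat.Prime.even_iff h2).1 h3
    rw [h4] at h1
    norm_num at h1
  -- the good primes
  set GS : Finset ℕ := RW (δ / 7) Y κ u E with hGS
  have hgood : ∀ p ∈ Wp u κ, Real.log p * ∑ d ∈ (E - p).natAbs.divisors, c d ≤
      (Y + 1) * (if p ∈ GS then 1 else 0) := by
    intro p hp
    obtain ⟨hp1, hp2, hp3, hp4⟩ := mem_Wp hp
    have h1 := w3 (E - p).natAbs (hm0 p hp)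
    have hlp : 0 ≤ Real.log p := Real.log_natCast_nonneg p
    have hlpY : Real.log p ≤ Y + 1 := by linarith
    refine (mul_le_mul_of_nonneg_left h1 hlp).trans ?_
    by_cases hc : ∀ l : ℕ, l.Prime → l ∣ (E - p).natAbs → (X : ℝ) ^ (δ / 6 : ℝ) ≤ l
    · rw [if_pos hc]
      have hpG : p ∈ GS := by
        rw [hGS]
        unfold RW
        rw [mem_filter]
        unfold Wp at hp
        rw [mem_filter] at hp
        exact ⟨hp.1, hp.2.1, hp.2.2, fun l hl hld => hXr2.trans_le (hc l hl (Int.natCast_dvd.1 hld))⟩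
      rw [if_pos hpG]
      linarith
    · rw [if_neg hc, mul_zero]
      split_ifs <;> linarith
  -- lower bound of the sifted sum
  have hsum1 : ∑ p ∈ Wp u κ, Real.log p * ∑ d ∈ (E - p).natAbs.divisors, c d ≤ (Y + 1) * (GS.card : ℝ) := by
    refine (sum_le_sum hgood).trans ?_
    rw [← mul_sum]
    apply mul_le_mul_of_nonneg_left _ (by linarith)
    rw [← sum_filter, sum_const, nsmul_eq_mul, mul_one]
    have : (Wp u κ).filter (fun p => p ∈ GS) ⊆ GS := by
      intro p hp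
      exact (mem_filter.1 hp).2
    exact_mod_cast card_le_card this
  have hsum2 : ∑ p ∈ Wp u κ, Real.log p * ∑ d ∈ (E - p).natAbs.divisors, c d =
      ∑ d ∈ Icc 1 (Gc δ Y), c d * th u κ d (E % d).toNat := by
    have e1 : ∀ p ∈ Wp u κ, Real.log p * ∑ d ∈ (E - p).natAbs.divisors, c d =
        ∑ d ∈ Icc 1 (Gc δ Y), (if p ≡ (E % d).toNat [MOD d] then c d * Real.log p else 0) := by
      intro p hp
      have e2 : ∑ d ∈ (E - p).natAbs.divisors, c d =
          ∑ d ∈ Icc 1 (Gc δ Y), (if p ≡ (E % d).toNat [MOD d] then c d else 0) := by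
        rw [← sum_filter]
        apply sum_congr_of_eq_on_inter
        · intro d hd hnd
          by_contra hne
          apply hnd
          rw [mem_filter]
          exact ⟨hcF d hne, (modEq_emod_iff (mem_Icc.1 (hcF d hne)).1).2 (Nat.dvd_of_mem_divisors hd)⟩
        · intro d hd hnd
          exfalso
          apply hnd
          rw [mem_filter] at hd
          rw [Nat.mem_divisors]
          exact ⟨(modEq_emod_iff (mem_Icc.1 hd.1).1).1 hd.2, hm0 p hp⟩
        · intro d _ _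
          rfl
      rw [e2, mul_sum]
      apply sum_congr rfl
      intro d _
      split_ifs
      · ring
      · ring
    rw [sum_congr rfl e1, sum_comm]
    apply sum_congr rfl
    intro d _
    rw [th_eq, mul_sum, sum_filter]
  have hth0 : ∀ d ∈ Icc 1 (Gc δ Y), ¬ d.Coprime E.natAbs → th u κ d (E % d).toNat = 0 := by
    intro d hd hnc
    rw [mem_Icc] at hd
    rw [th_eq]
    apply sum_eq_zero
    intro p hp
    exfalso
    rw [mem_filter] at hp
    obtain ⟨hp1, hp2, hp3, hp4⟩ := mem_Wp hp.1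
    obtain ⟨l, hl, hld, hlE⟩ := Nat.Prime.not_coprime_iff_dvd.1 hnc
    have h1 : l ∣ p := by
      have h2 : d ∣ (E - p).natAbs := (modEq_emod_iff hd.1).1 hp.2
      have h3 : (l : ℤ) ∣ E - p := Int.natCast_dvd.2 (hld.trans h2)
      have h4 : (l : ℤ) ∣ E := Int.natCast_dvd.2 hlE
      have h5 : (l : ℤ) ∣ p := (dvd_sub_right h4).1 h3
      exact_mod_cast h5
    have h3 : l = p := (Nat.prime_dvd_prime_iff_eq hl hp1).1 h1
    have h4 : l ≤ Gc δ Y := (Nat.le_of_dvd hd.1 hld).trans hd.2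
    have h5 : (p : ℝ) ≤ Real.exp (δ * Y) := by
      rw [← h3]
      have : (l : ℝ) ≤ Gc δ Y := by exact_mod_cast h4
      exact this.trans (Nat.floor_le (Real.exp_pos _).le)
    have h6 : Real.log p ≤ δ * Y := (Real.log_le_iff_le_exp (by exact_mod_cast hp1.pos)).2 h5
    linarith
  have hsum3 : ∑ d ∈ Icc 1 (Gc δ Y), c d * th u κ d (E % d).toNat =
      ∑ d ∈ (Icc 1 (Gc δ Y)).filter (fun q => q.Coprime E.natAbs), c d * th u κ d (E % d).toNat := by
    rw [sum_filter]
    apply sum_congr rfl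
    intro d hd
    split_ifs with h
    · rfl
    · rw [hth0 d hd h, mul_zero]
  set θ := th u κ 1 0 with hθ
  have hθ0 : 0 ≤ θ := le_trans (by positivity) hth
  have hsum4 : ∑ d ∈ (Icc 1 (Gc δ Y)).filter (fun q => q.Coprime E.natAbs), c d * (1 / (Nat.totient d : ℝ)) =
      ∑ d ∈ (Icc 1 ⌊(X : ℝ) ^ (δ / 2 : ℝ)⌋₊).filter (fun d => Nat.Coprime E.natAbs d),
          c d * (1 / (Nat.totient d : ℝ)) := by
    symm
    apply sum_subset
    · intro d hd
      rw [mem_filter, mem_Icc] at hd ⊢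
      refine ⟨⟨hd.1.1, ?_⟩, hd.2.symm⟩
      refine hd.1.2.trans ?_
      unfold Gc
      exact Nat.floor_le_floor hXr1
    · intro d hd hnd
      by_cases h : c d = 0
      · rw [h, zero_mul]
      · exfalso
        apply hnd
        rw [mem_filter, mem_Icc] at hd ⊢
        exact ⟨⟨hd.1.1, Nat.le_floor (w2 d h).2⟩, hd.2.symm⟩
  have hE1' : 1 ≤ E.natAbs := by
    rw [Nat.one_le_iff_ne_zero, Ne, Int.natAbs_eq_zero]
    exact hE0
  have hE2' : E.natAbs ≤ 2 * X := by
    have h1 : ((E.natAbs : ℕ) : ℝ) ≤ X := by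
      have h2 : ((E.natAbs : ℕ) : ℝ) = |(E : ℝ)| := by
        rw [Nat.cast_natAbs, Int.cast_abs]
      rw [h2]
      exact hE2.trans hX1
    have h2 : E.natAbs ≤ X := by exact_mod_cast h1
    omega
  have h4 := w4 E.natAbs hE1' hE2' (Int.natAbs_even.2 hEe)
  rw [← hsum4] at h4
  have h5 : c0 / Real.log X ≤ ∑ d ∈ (Icc 1 (Gc δ Y)).filter (fun q => q.Coprime E.natAbs),
      c d * (1 / (Nat.totient d : ℝ)) := by
    refine le_trans ?_ h4
    have hs := one_le_sgs' E.natAbs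
    have : 0 ≤ c0 / Real.log X := by
      apply div_nonneg hc0.le
      linarith
    nlinarith
  -- the error
  have h6 : |∑ d ∈ (Icc 1 (Gc δ Y)).filter (fun q => q.Coprime E.natAbs),
      c d * (th u κ d (E % d).toNat - θ / (Nat.totient d : ℝ))| ≤ 5 * (Y + 3) * (κ * Real.exp Y / Y ^ 4) := by
    refine (abs_sum_le_sum_abs _ _).trans ?_
    calc ∑ d ∈ (Icc 1 (Gc δ Y)).filter (fun q => q.Coprime E.natAbs),
        |c d * (th u κ d (E % d).toNat - θ / (Nat.totient d : ℝ))|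
        ≤ ∑ d ∈ (Icc 1 (Gc δ Y)).filter (fun q => q.Coprime E.natAbs),
          5 * (Y + 3) * |th u κ d (E % d).toNat - θ / (Nat.totient d : ℝ)| := by
          refine sum_le_sum fun d _ => ?_
          rw [abs_mul]
          apply mul_le_mul_of_nonneg_right _ (abs_nonneg _)
          have := w1 d
          linarith
      _ = 5 * (Y + 3) * ∑ d ∈ (Icc 1 (Gc δ Y)).filter (fun q => q.Coprime E.natAbs),
          |th u κ d (E % d).toNat - θ / (Nat.totient d : ℝ)| := by rw [mul_sum]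
      _ ≤ _ := mul_le_mul_of_nonneg_left herr (by positivity)
  have h7 : ∑ d ∈ (Icc 1 (Gc δ Y)).filter (fun q => q.Coprime E.natAbs), c d * th u κ d (E % d).toNat =
      θ * ∑ d ∈ (Icc 1 (Gc δ Y)).filter (fun q => q.Coprime E.natAbs), c d * (1 / (Nat.totient d : ℝ)) +
      ∑ d ∈ (Icc 1 (Gc δ Y)).filter (fun q => q.Coprime E.natAbs),
        c d * (th u κ d (E % d).toNat - θ / (Nat.totient d : ℝ)) := by
    rw [mul_sum, ← sum_add_distrib]
    apply sum_congr rfl
    intro d _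
    ring
  have h8 := (abs_le.1 h6).1
  have h9 : c₁ * κ * Real.exp Y * (c0 / (Y + 3)) ≤ θ * ∑ d ∈ (Icc 1 (Gc δ Y)).filter (fun q => q.Coprime E.natAbs),
      c d * (1 / (Nat.totient d : ℝ)) := by
    apply mul_le_mul hth _ (by positivity) hθ0
    refine le_trans ?_ h5
    apply div_le_div_of_nonneg_left hc0.le (by linarith) hlX2
  rw [hsum2, hsum3, h7] at hsum1
  have hG0 : 0 < κ * Real.exp Y := by positivity
  have h10 : c₁ * (κ * Real.exp Y) * (c0 / (Y + 3)) - 5 * (Y + 3) * (κ * Real.exp Y / Y ^ 4) ≤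
      (Y + 1) * (GS.card : ℝ) := by
    have e : c₁ * (κ * Real.exp Y) * (c0 / (Y + 3)) = c₁ * κ * Real.exp Y * (c0 / (Y + 3)) := by ring
    rw [e]
    linarith
  have h11 := sive_fin hY10 hc₁ hc0 hG0 hYc h10
  have e : c₁ * c0 / 8 * κ * Real.exp Y / Y ^ 2 = c₁ * c0 / 8 * (κ * Real.exp Y) / Y ^ 2 := by ring
  rw [e]
  exact h11

end Pool.Agent.L7h29.EV
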