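import Pool.Agent.L7h29.EV.Dst

/-!
# Project EV (helper88): every even sum (`S_FINW → S_SUM`)
-/

set_option autoImplicit false

namespace Pool.Agent.L7h29.EV

open Finset Filter
open Pool.Agent.L7h88.EV

theorem s_SUM (hF : S_FINW) : S_SUM := by
  classical
  obtain ⟨ζ, c, δ₀, hζ, hc, hδ₀, hδ₀', X₁, H⟩ := hF
  obtain ⟨δ, hδ⟩ : ∃ δ, δ = min (δ₀ / 2) ζ := ⟨_, rfl⟩
  have hδ0 : 0 < δ := by rw [hδ]; exact lt_min (by positivity) hζ
  have hδ1 : δ ≤ δ₀ / 2 := by rw [hδ]; exact min_le_left _ _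
  have hδ2 : δ ≤ ζ := by rw [hδ]; exact min_le_right _ _
  have evζ : ∀ᶠ k : ℕ in atTop, (2 : ℝ) ≤ (k : ℝ) ^ ζ :=
    ((tendsto_rpow_atTop hζ).comp tendsto_natCast_atTop_atTop).eventually_ge_atTop 2
  obtain ⟨k₀, hk₀⟩ := eventually_atTop.1 (((ev_rpow (δ := δ) (δ₀ := δ₀) (by linarith) (by linarith) hδ₀.le 3
    (by norm_num)).and (eventually_ge_atTop 7)).and evζ)
  refine ⟨⌈3 / ζ⌉₊, c, δ, hc, hδ0, ?_⟩
  rw [← Filter.eventually_atTop]
  filter_upwards [ev_rpow (δ := δ) (δ₀ := δ₀) (by linarith) (by linarith) hδ₀.le (k₀ : ℝ) (Nat.cast_nonneg _),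
    eventually_ge_atTop X₁, eventually_ge_atTop 1] with X g1 g2 g3
  obtain ⟨B, hB⟩ : ∃ B, B = (Icc 2 X).filter (fun N : ℕ => ¬ ∀ (a b : ℝ) (E : ℤ), (N : ℝ) ^ 2 ≤ a →
    b ≤ ((N : ℝ) + 1) ^ 2 → (N : ℝ) ^ (1 - δ₀) ≤ b - a → Even E → (|E| : ℝ) ≤ 4 * (N : ℝ) ^ 2 + 4 * N + 4 →
    c * (b - a) / Real.log N ^ 2 ≤ ((GP ζ N a b E).card : ℝ)) := ⟨_, rfl⟩
  have hBc : (B.card : ℝ) ≤ (2 * (X : ℝ)) ^ (1 - δ₀) := by
    have := H X (by omega)
    rw [← hB] at this
    refine this.trans (Real.rpow_le_rpow (Nat.cast_nonneg _) ?_ (by linarith))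
    have : (0 : ℝ) ≤ X := Nat.cast_nonneg _
    linarith
  obtain ⟨S, hS⟩ : ∃ S, S = (Icc 2 X).filter (fun N : ℕ => ¬ ∀ (h : ℤ) (α β : ℝ), |h| ≤ (N : ℤ) ^ 2 →
    0 ≤ α → β ≤ 1 → (N : ℝ) ^ (-δ) ≤ β - α →
    c * ((β - α) * (N / Real.log N ^ 2)) ≤ ((sums ⌈3 / ζ⌉₊ δ N h α β).card : ℝ)) := ⟨_, rfl⟩
  rw [← hS]
  have hcov : ∀ N ∈ S, k₀ < N → N ∈ B := by
    intro N hk hkk
    rw [hS, mem_filter, mem_Icc] at hk
    obtain ⟨⟨hk1, hkX⟩, hk3⟩ := hk
    obtain ⟨⟨e1, e2⟩, e3⟩ := hk₀ N hkk.le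
    rw [hB, mem_filter, mem_Icc]
    refine ⟨⟨hk1, hkX⟩, fun hall => hk3 fun h α β hh hα hβ hαβ => ?_⟩
    have hN7 : (7 : ℝ) ≤ N := by exact_mod_cast e2
    have hN0 : (0 : ℝ) < N := by linarith
    have hN1 : (1 : ℝ) ≤ N := by linarith
    have hNp : (N : ℝ) ^ (1 - δ) ≤ (β - α) * N := by
      have h1 := mul_le_mul_of_nonneg_right hαβ hN0.le
      refine le_trans (le_of_eq ?_) h1
      rw [← Real.rpow_add_one hN0.ne']
      congr 1
      ring
    have h2N : (N : ℝ) ^ (1 - δ₀) ≤ (2 * (N : ℝ)) ^ (1 - δ₀) :=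
      Real.rpow_le_rpow hN0.le (by linarith) (by linarith)
    have hN30 : 0 < (N : ℝ) ^ (1 - δ₀) := by positivity
    have hβα3 : 3 ≤ (β - α) * N := by linarith
    have hβα : 0 < β - α := by
      by_contra hcon
      have : (β - α) * N ≤ 0 := mul_nonpos_of_nonpos_of_nonneg (not_lt.1 hcon) hN0.le
      linarith
    obtain ⟨a, ha⟩ : ∃ a : ℝ, a = (N : ℝ) ^ 2 + 2 * α * N + 3 := ⟨_, rfl⟩
    obtain ⟨b, hb⟩ : ∃ b : ℝ, b = (N : ℝ) ^ 2 + 2 * β * N := ⟨_, rfl⟩
    obtain ⟨E, hE⟩ : ∃ E : ℤ, E = 2 * ((N : ℤ) ^ 2 + N + 1 + h) := ⟨_, rfl⟩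
    have hαN : 0 ≤ 2 * α * N := by positivity
    have ha1 : (N : ℝ) ^ 2 ≤ a := by rw [ha]; linarith
    have hβN : 2 * β * N ≤ 2 * 1 * N := by
      apply mul_le_mul_of_nonneg_right _ hN0.le
      linarith
    have hb1 : b ≤ ((N : ℝ) + 1) ^ 2 := by rw [hb]; nlinarith
    have hba : (β - α) * N ≤ b - a := by rw [ha, hb]; nlinarith
    have hEe : Even E := ⟨(N : ℤ) ^ 2 + N + 1 + h, by rw [hE]; ring⟩
    have hhr : (|(h : ℝ)|) ≤ (N : ℝ) ^ 2 := by exact_mod_cast hh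
    have hEr : (E : ℝ) = 2 * ((N : ℝ) ^ 2 + N + 1 + h) := by rw [hE]; push_cast; ring
    rw [abs_le] at hhr
    have hEl : (|E| : ℝ) ≤ 4 * (N : ℝ) ^ 2 + 4 * N + 4 := by
      rw [hEr, abs_le]
      constructor <;> nlinarith [hhr.1, hhr.2]
    have hmain := hall a b E ha1 hb1 (by linarith) hEe hEl
    have hcard : (GP ζ N a b E).card ≤ (sums ⌈3 / ζ⌉₊ δ N h α β).card := by
      apply card_le_card_of_injOn (fun p => p - N ^ 2 - 1)
      · intro p hp
        rw [mem_coe] at hp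
        unfold GP at hp
        rw [mem_filter, mem_Icc] at hp
        obtain ⟨⟨hp1, hp2⟩, hpp, hap, hpb, hl⟩ := hp
        have h1 : (N : ℝ) ^ 2 + 3 < p := by rw [ha] at hap; linarith
        have h1' : N ^ 2 + 3 < p := by exact_mod_cast h1
        obtain ⟨k, hk⟩ : ∃ k, p = N ^ 2 + k + 1 := ⟨p - N ^ 2 - 1, by omega⟩
        have ek : p - N ^ 2 - 1 = k := by omega
        have hpr : (p : ℝ) = (N : ℝ) ^ 2 + k + 1 := by exact_mod_cast hk
        have hpb2 : (p : ℝ) < (N : ℝ) ^ 2 + 2 * β * N := by rw [← hb]; exact hpb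
        have h2 : (k : ℝ) ≤ 2 * N := by linarith
        have h2' : k ≤ 2 * N := by exact_mod_cast h2
        have hEp : E - p = ((N : ℤ) + 1) ^ 2 - k + 2 * h := by
          rw [hE, hk]
          push_cast
          ring
        have hl' : ∀ l : ℕ, l.Prime → (l : ℤ) ∣ ((N : ℤ) + 1) ^ 2 - k + 2 * h → (N : ℝ) ^ ζ < l := by
          intro l hlp hld
          rw [← hEp] at hld
          exact hl l hlp hld
        show p - N ^ 2 - 1 ∈ (sums ⌈3 / ζ⌉₊ δ N h α β : Set ℕ)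
        rw [ek, mem_coe]
        unfold sums
        rw [mem_filter, mem_Icc]
        refine ⟨⟨by omega, h2'⟩, ?_, by linarith, by rw [← hk]; exact hpp, ?_, ?_⟩
        · rw [ha] at hap; linarith
        · apply Pool.Agent.L7h88.BW.len_le (N := N) (by omega) _ _ hζ (Nat.le_ceil _)
          · intro l hlp hld
            exact hl' l hlp (Int.natCast_dvd.2 hld)
          · -- not zero
            rw [Nat.one_le_iff_ne_zero, Ne, Int.natAbs_eq_zero]
            intro h0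
            have h3 := hl' 2 Nat.prime_two (by rw [h0]; exact dvd_zero _)
            push_cast at h3
            linarith
          · -- the size
            have h3 : ((N : ℤ) + 1) ^ 2 - k + 2 * h ≤ 4 * (N : ℤ) ^ 2 := by
              have := (abs_le.1 hh).2
              have h4 : (7 : ℤ) ≤ N := by exact_mod_cast e2
              nlinarith
            have h4 : -(4 * (N : ℤ) ^ 2) ≤ ((N : ℤ) + 1) ^ 2 - k + 2 * h := by
              have := (abs_le.1 hh).1
              have h4 : (7 : ℤ) ≤ N := by exact_mod_cast e2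
              have h5 : (k : ℤ) ≤ 2 * N := by exact_mod_cast h2'
              nlinarith
            have h5 : ((((N : ℤ) + 1) ^ 2 - k + 2 * h).natAbs : ℤ) ≤ ((N ^ 3 : ℕ) : ℤ) := by
              rw [Int.natCast_natAbs]
              have h6 : |((N : ℤ) + 1) ^ 2 - k + 2 * h| ≤ 4 * (N : ℤ) ^ 2 := abs_le.2 ⟨h4, h3⟩
              refine h6.trans ?_
              push_cast
              have h7 : (7 : ℤ) ≤ N := by exact_mod_cast e2
              nlinarith [sq_nonneg (N : ℤ)]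
            exact_mod_cast h5
        · intro l hlp hld
          refine lt_of_le_of_lt ?_ (hl' l hlp hld)
          exact Real.rpow_le_rpow_of_exponent_le hN1 hδ2
      · intro p hp p' hp' he
        rw [mem_coe] at hp hp'
        unfold GP at hp hp'
        rw [mem_filter] at hp hp'
        have h1 : (N : ℝ) ^ 2 + 3 < p := by
          have := hp.2.2.1
          rw [ha] at this; linarith
        have h2 : (N : ℝ) ^ 2 + 3 < p' := by
          have := hp'.2.2.1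
          rw [ha] at this; linarith
        have h1' : N ^ 2 + 3 < p := by exact_mod_cast h1
        have h2' : N ^ 2 + 3 < p' := by exact_mod_cast h2
        simp only at he
        omega
    refine le_trans ?_ (hmain.trans (Nat.cast_le.2 hcard))
    have hlogN0 : 0 < Real.log N := Real.log_pos (by linarith)
    calc c * ((β - α) * (N / Real.log N ^ 2)) = c * ((β - α) * N) / Real.log N ^ 2 := by ring
      _ ≤ c * (b - a) / Real.log N ^ 2 := by gcongr
  have hc1 : S.card ≤ k₀ + B.card := by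
    have h1 : S ⊆ Icc 1 k₀ ∪ B := by
      intro k hk
      rw [mem_union, mem_Icc]
      by_cases h : k₀ < k
      · exact Or.inr (hcov k hk h)
      · left
        rw [hS, mem_filter, mem_Icc] at hk
        exact ⟨by omega, not_lt.1 h⟩
    have h3 := (card_le_card h1).trans (card_union_le _ _)
    rw [Nat.card_Icc, Nat.add_sub_cancel] at h3
    exact h3
  have hc2 : (S.card : ℝ) ≤ k₀ + B.card := by exact_mod_cast hc1
  linarith

end Pool.Agent.L7h29.EV
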