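import Pool.Agent.L7h88.EV.Stm

/-!
# Project EV (helper88): all windows but few are good for all `E` at once (`S_WIN`)
-/

set_option autoImplicit false

namespace Pool.Agent.L7h29.EV

open Finset Filter
open Pool.Agent.L7h88.BW (th S_POOR)
open Pool.Agent.L7h18.BP (Gc S_BVP)
open Pool.Agent.L7h88.EV

lemma emod_coprime {q : ℕ} {E : ℤ} (hq : 1 ≤ q) (h : q.Coprime E.natAbs) : (E % q).toNat.Coprime q := by
  have hq0 : (q : ℤ) ≠ 0 := by exact_mod_cast (by omega : q ≠ 0)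
  have h1 : 0 ≤ E % (q : ℤ) := Int.emod_nonneg _ hq0
  have h2 : (((E % q).toNat : ℕ) : ℤ) = E % q := Int.toNat_of_nonneg h1
  have h3 : Int.gcd (E % q) q = Int.gcd E q := by
    conv_rhs => rw [← Int.emod_add_mul_ediv E q]
    rw [Int.gcd_add_mul_left_left]
  rw [← h2, Int.gcd_natCast_natCast] at h3
  unfold Nat.Coprime
  rw [h3, Int.gcd_eq_natAbs, Int.natAbs_natCast, Nat.gcd_comm]
  exact h

theorem s_WIN (hB : S_BVP) (hP : S_POOR) (hS : S_SIVX) : S_WIN := by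
  classical
  obtain ⟨δ, ηB, hδ, hδ', hηB, hηB', hB⟩ := hB
  obtain ⟨c', η', YP, hc', hη', hP⟩ := hP
  obtain ⟨ζ, hζ, hS⟩ := hS δ hδ hδ'
  obtain ⟨c, YS, hc, hS⟩ := hS c' hc'
  obtain ⟨YB, hB⟩ := hB 4
  obtain ⟨η, hη⟩ : ∃ η, η = min ηB η' := ⟨_, rfl⟩
  have h1 : η ≤ ηB := by rw [hη]; exact min_le_left _ _
  have h2 : η ≤ η' := by rw [hη]; exact min_le_right _ _
  have h0 : 0 < η := by rw [hη]; exact lt_min hηB hη'
  refine ⟨ζ, c, η, ηB / 2, max (max YP YS) (max YB (max 20 (2 / ηB))), hζ, hc, h0, by linarith, by positivity, ?_⟩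
  intro Y κ hY hκ
  simp only [max_le_iff] at hY
  obtain ⟨⟨hYP, hYS⟩, hYB, hY20, hYη⟩ := hY
  have hY0 : 0 < Y := by linarith
  have k1 : Real.exp (-(0.504 * Y)) ≤ κ := by
    rw [hκ]; apply Real.exp_le_exp.2; nlinarith
  have k2 : κ ≤ Real.exp (-(Y / 4)) := by
    rw [hκ]; apply Real.exp_le_exp.2; nlinarith
  have k3 : Real.exp (-((1 / 2 + ηB) * Y)) ≤ κ := by
    rw [hκ]; apply Real.exp_le_exp.2; nlinarith
  have k4 : Real.exp (-((1 / 2 + η') * Y)) ≤ κ := by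
    rw [hκ]; apply Real.exp_le_exp.2; nlinarith
  have hκ0 : 0 < κ := by rw [hκ]; exact Real.exp_pos _
  obtain ⟨t, ht0, htκ, ht⟩ := hB Y hYB κ k3 k2
  refine ⟨t, ht0, htκ, ?_⟩
  have hPp := hP Y hYP κ t k4 k2 ht0 htκ
  obtain ⟨R, hR⟩ : ∃ R, R = range (⌊1 / (2 * κ)⌋₊ - 1) := ⟨_, rfl⟩
  rw [← hR] at ht hPp ⊢
  have hsub : R.filter (fun j : ℕ => ∃ E : ℤ, Even E ∧ (|E| : ℝ) ≤ Real.exp (Y + 2) ∧
      ((RW ζ Y κ (Y - 1 / 4 + t + j * κ) E).card : ℝ) < c * κ * Real.exp Y / Y ^ 2) ⊆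
      R.filter (fun j : ℕ => ¬ ∀ a : ℕ → ℕ, (∀ q, (a q).Coprime q) →
        ∑ q ∈ Icc 1 (Gc δ Y), |th (Y - 1 / 4 + t + j * κ) κ q (a q) -
        th (Y - 1 / 4 + t + j * κ) κ 1 0 / (Nat.totient q : ℝ)| ≤ κ * Real.exp Y / Y ^ 4) ∪
      R.filter (fun j : ℕ => th (Y - 1 / 4 + t + j * κ) κ 1 0 < c' * κ * Real.exp Y) := by
    intro j hj
    rw [mem_filter] at hj
    obtain ⟨hj, E, hE1, hE2, hE3⟩ := hj
    rw [mem_union, mem_filter, mem_filter]
    by_contra hcon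
    push Not at hcon
    obtain ⟨g1, g2⟩ := hcon
    have g1' := g1 hj
    have g2' := g2 hj
    have hjM : j + 2 ≤ ⌊1 / (2 * κ)⌋₊ := by
      rw [hR, mem_range] at hj
      omega
    have hjM' : ((j + 2 : ℕ) : ℝ) ≤ 1 / (2 * κ) := (Nat.cast_le.2 hjM).trans (Nat.floor_le (by positivity))
    rw [le_div_iff₀ (by positivity)] at hjM'
    push_cast at hjM'
    have hjκ : 0 ≤ (j : ℝ) * κ := by positivity
    have := hS Y hYS κ (Y - 1 / 4 + t + j * κ) E k1 k2 (by linarith) (by linarith) hE1 hE2 g2' (by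
      refine le_trans ?_ (g1' (fun q => if q.Coprime E.natAbs ∧ 1 ≤ q then (E % q).toNat else 1) ?_)
      · calc _ = ∑ q ∈ (Icc 1 (Gc δ Y)).filter (fun q => q.Coprime E.natAbs),
              |th (Y - 1 / 4 + t + j * κ) κ q (if q.Coprime E.natAbs ∧ 1 ≤ q then (E % q).toNat else 1) -
                th (Y - 1 / 4 + t + j * κ) κ 1 0 / (Nat.totient q : ℝ)| := by
              apply sum_congr rfl
              intro q hq
              rw [mem_filter, mem_Icc] at hq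
              rw [if_pos ⟨hq.2, hq.1.1⟩]
          _ ≤ _ := sum_le_sum_of_subset_of_nonneg (filter_subset _ _) fun _ _ _ => abs_nonneg _
      · intro q
        show (if q.Coprime E.natAbs ∧ 1 ≤ q then (E % q).toNat else 1).Coprime q
        split_ifs with h
        · exact emod_coprime h.2 h.1
        · exact Nat.coprime_one_left q)
    linarith
  have hc1 := (card_le_card hsub).trans (card_union_le _ _)
  have hc2 : (((R.filter (fun j : ℕ => ∃ E : ℤ, Even E ∧ (|E| : ℝ) ≤ Real.exp (Y + 2) ∧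
      ((RW ζ Y κ (Y - 1 / 4 + t + j * κ) E).card : ℝ) < c * κ * Real.exp Y / Y ^ 2)).card : ℕ) : ℝ) ≤
      ((R.filter (fun j : ℕ => ¬ ∀ a : ℕ → ℕ, (∀ q, (a q).Coprime q) →
        ∑ q ∈ Icc 1 (Gc δ Y), |th (Y - 1 / 4 + t + j * κ) κ q (a q) -
        th (Y - 1 / 4 + t + j * κ) κ 1 0 / (Nat.totient q : ℝ)| ≤ κ * Real.exp Y / Y ^ 4)).card : ℝ) +
      ((R.filter (fun j : ℕ => th (Y - 1 / 4 + t + j * κ) κ 1 0 < c' * κ * Real.exp Y)).card : ℝ) := by
    exact_mod_cast hc1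
  have hc3 : Real.exp (-(ηB * Y)) / κ + Real.exp (0.306 * Y) ≤ Real.exp (-(ηB / 2 * Y)) / κ := by
    have e1 : Real.exp (0.306 * Y) = Real.exp (0.306 * Y) * κ / κ := by field_simp
    rw [e1, ← add_div]
    apply div_le_div_of_nonneg_right _ hκ0.le
    have e2 : Real.exp (0.306 * Y) * κ ≤ Real.exp (-(ηB / 2 * Y)) * Real.exp (-1) := by
      rw [hκ, ← Real.exp_add, ← Real.exp_add]
      apply Real.exp_le_exp.2
      nlinarith
    have e3 : Real.exp (-(ηB * Y)) ≤ Real.exp (-(ηB / 2 * Y)) * Real.exp (-1) := by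
      rw [← Real.exp_add]
      apply Real.exp_le_exp.2
      have : 2 / ηB * ηB ≤ Y * ηB := mul_le_mul_of_nonneg_right hYη hηB.le
      rw [div_mul_cancel₀ _ hηB.ne'] at this
      linarith
    have e4 : Real.exp (-1 : ℝ) ≤ 1 / 2 := by
      rw [Real.exp_neg, one_div]
      apply inv_anti₀ (by norm_num)
      linarith [Real.add_one_le_exp (1 : ℝ)]
    have e5 := Real.exp_pos (-(ηB / 2 * Y))
    nlinarith
  linarith

end Pool.Agent.L7h29.EV
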